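import Mathlib
import Pool.Agent.Run7.h514.Bipolar

/-!
A finite path-mergeable digraph has a hamiltonian path from `x` to `y` exactly when it has a
spanning acyclic subdigraph with `x` as its only source and `y` as its only sink, equivalently an
ordering of its vertices in which every vertex but `x` has an earlier in-neighbour and every vertex
but `y` has a later out-neighbour.
-/

namespace Pool.Agent.Results.MP_f8b4b7_lc.BipolarSubdigraph

open Run7.h514

theorem result {V : Type*} [Finite V] (D : Digraph V) (hD : PathMergeable D) :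
    (∀ x y : V,
      ((∃ l : List V, IsPath D x y l ∧ ∀ v : V, v ∈ l) ↔
        ∃ H : Digraph V, H ≤ D ∧ Acyclic H ∧ OnlySource H x ∧ OnlySink H y) ∧
      ((∃ l : List V, IsPath D x y l ∧ ∀ v : V, v ∈ l) ↔ ∃ l : List V, GoodOrder D x y l)) ∧
    ((∃ l : List V, l ≠ [] ∧ l.IsChain D.Adj ∧ l.Nodup ∧ ∀ v : V, v ∈ l) ↔
      ∃ H : Digraph V, H ≤ D ∧ Acyclic H ∧ (∃ x : V, OnlySource H x) ∧ ∃ y : V, OnlySink H y) := by
  have key : ∀ x y : V, (∃ l : List V, IsPath D x y l ∧ ∀ v : V, v ∈ l) ↔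
      ∃ H : Digraph V, H ≤ D ∧ Acyclic H ∧ OnlySource H x ∧ OnlySink H y := by
    intro x y
    rw [exists_bipolar_iff_ham hD x y]
    constructor
    · rintro ⟨H, h⟩; exact ⟨H, h.le, h.acyclic, h.source, h.sink⟩
    · rintro ⟨H, h1, h2, h3, h4⟩; exact ⟨H, ⟨h1, h2, h3, h4⟩⟩
  refine ⟨fun x y => ⟨key x y, exists_goodOrder_iff_ham hD x y⟩, ?_⟩
  constructor
  · rintro ⟨l, hne, hc, hn, hm⟩
    have h1 : l.head? = some (l.head hne) := List.head?_eq_some_head hne
    have h2 : l.getLast? = some (l.getLast hne) := List.getLast?_eq_some_getLast hne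
    obtain ⟨H, a, b, c, d⟩ := (key _ _).mp ⟨l, ⟨hc, hn, h1, h2⟩, hm⟩
    exact ⟨H, a, b, ⟨_, c⟩, ⟨_, d⟩⟩
  · rintro ⟨H, a, b, ⟨x, c⟩, ⟨y, d⟩⟩
    obtain ⟨l, ⟨hc, hn, hx, -⟩, hm⟩ := (key x y).mpr ⟨H, a, b, c, d⟩
    refine ⟨l, ?_, hc, hn, hm⟩
    rintro rfl
    simp at hx

end Pool.Agent.Results.MP_f8b4b7_lc.BipolarSubdigraph
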